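import Mathlib
import Pool.Agent.Helper752.SquareLower

/-!
# Lower bounds for connected sets near the corners of a square with a whisker

Labels: `0, 2, 3` are the corners `(-1, 1), (1, -1), (-1, -1)` of the square, `4` is the end of a
short whisker at the corner `(1, 1)`, and `1` is either the corner `(1, 1)` or the midpoint of an
end edge of the horizontal Steiner tree.
-/

set_option autoImplicit false

namespace Pool.Agent.W574.NU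

open scoped ENNReal NNReal
open MeasureTheory Metric Pool.Agent.Helper752

/-- The basic calibration inequality. -/
theorem cal {K : Set E2} {p : Fin 5 → E2} {B : ℝ} {M : Set (Finset (Fin 5))}
    (hB : ∀ φ : Fin 5 → E2 → ℝ, (∀ A ∈ M, LipOn K φ A) → (∀ x ∈ K, ∑ i, φ i x = 0) →
      ∑ i, φ i (p i) ≤ B)
    (cx cy : Fin 5 → ℝ) (hx : ∑ i, cx i = 0) (hy : ∑ i, cy i = 0)
    (h : ∀ A ∈ M, (∑ i ∈ A, cx i) ^ 2 + (∑ i ∈ A, cy i) ^ 2 ≤ 1) :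
    ∑ i, (cx i * p i 0 + cy i * p i 1) ≤ B := by
  refine hB (lin cx cy) (fun A hA => lin_lipOn K cx cy A (h A hA)) ?_
  intro x _
  simp only [lin, Finset.sum_add_distrib, ← Finset.sum_mul, hx, hy]
  ring

/-- The set of label sets on which an integral calibration is too long. -/
def badSet (n m : Fin 5 → ℤ) : Finset (Finset (Fin 5)) :=
  Finset.univ.filter fun A => 1000000 < (∑ i ∈ A, n i) ^ 2 + (∑ i ∈ A, m i) ^ 2

/-- Calibration with integral vectors (scaled by a thousand). -/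
theorem calInt {K : Set E2} {p : Fin 5 → E2} {B : ℝ} {M : Set (Finset (Fin 5))}
    (hB : ∀ φ : Fin 5 → E2 → ℝ, (∀ A ∈ M, LipOn K φ A) → (∀ x ∈ K, ∑ i, φ i x = 0) →
      ∑ i, φ i (p i) ≤ B)
    (n m : Fin 5 → ℤ) (hx : ∑ i, n i = 0) (hy : ∑ i, m i = 0)
    (h : ∀ A ∈ M, A ∉ badSet n m) :
    ∑ i, ((n i : ℝ) * p i 0 + (m i : ℝ) * p i 1) ≤ 1000 * B := by
  have h1 := cal (p := p) hB (fun i => (n i : ℝ) / 1000) (fun i => (m i : ℝ) / 1000) ?_ ?_ ?_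
  · have h2 : ∑ i, ((n i : ℝ) * p i 0 + (m i : ℝ) * p i 1)
        = 1000 * ∑ i, ((n i : ℝ) / 1000 * p i 0 + (m i : ℝ) / 1000 * p i 1) := by
      rw [Finset.mul_sum]
      refine Finset.sum_congr rfl fun i _ => ?_
      ring
    rw [h2]
    linarith
  · rw [← Finset.sum_div]
    have : ((∑ i, n i : ℤ) : ℝ) = 0 := by rw [hx]; simp
    push_cast at this
    rw [this, zero_div]
  · rw [← Finset.sum_div]
    have : ((∑ i, m i : ℤ) : ℝ) = 0 := by rw [hy]; simp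
    push_cast at this
    rw [this, zero_div]
  · intro A hA
    have h2 := h A hA
    simp only [badSet, Finset.mem_filter, Finset.mem_univ, true_and, not_lt] at h2
    have h3 : (((∑ i ∈ A, n i) ^ 2 + (∑ i ∈ A, m i) ^ 2 : ℤ) : ℝ) ≤ ((1000000 : ℤ) : ℝ) := by
      exact_mod_cast h2
    push_cast at h3
    rw [← Finset.sum_div, ← Finset.sum_div]
    have h4 : ((∑ i ∈ A, (n i : ℝ)) / 1000) ^ 2 + ((∑ i ∈ A, (m i : ℝ)) / 1000) ^ 2
        = ((∑ i ∈ A, (n i : ℝ)) ^ 2 + (∑ i ∈ A, (m i : ℝ)) ^ 2) / 1000000 := by ring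
    rw [h4, div_le_one (by norm_num)]
    exact h3

theorem sum5 (f : Fin 5 → ℝ) (A : Finset (Fin 5)) :
    ∑ i ∈ A, f i = (if 0 ∈ A then f 0 else 0) + (if 1 ∈ A then f 1 else 0)
      + (if 2 ∈ A then f 2 else 0) + (if 3 ∈ A then f 3 else 0) + (if 4 ∈ A then f 4 else 0) := by
  have h : ∑ i ∈ A, f i = ∑ i, if i ∈ A then f i else 0 := by
    rw [Finset.sum_ite_mem]; simp
  rw [h, Fin.sum_univ_five]

theorem sq3 : √3 ^ 2 = 3 := Real.sq_sqrt (by norm_num)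
theorem sq3_lt : √3 < 1.7321 := by
  rw [Real.sqrt_lt' (by norm_num)]; norm_num
theorem sq3_gt : 1.732 < √3 := by
  rw [Real.lt_sqrt (by norm_num)]; norm_num

/-- The label sets on which the calibration of the horizontal tree is too long. -/
def badS : Finset (Finset (Fin 5)) := {{2, 3}, {1, 2, 3}, {0, 4}, {0, 1, 4}}

/-- The label sets on which the calibration of the vertical tree is too long. -/
def badT : Finset (Finset (Fin 5)) :=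
  {{1, 2}, {0, 3}, {0, 1, 3}, {1, 2, 3}, {0, 4}, {2, 4}, {1, 2, 4}, {0, 3, 4}}

/-- Calibration of the horizontal tree. -/
theorem calS {K : Set E2} {p : Fin 5 → E2} {B : ℝ} {M : Set (Finset (Fin 5))}
    (hB : ∀ φ : Fin 5 → E2 → ℝ, (∀ A ∈ M, LipOn K φ A) → (∀ x ∈ K, ∑ i, φ i x = 0) →
      ∑ i, φ i (p i) ≤ B)
    (h : ∀ A ∈ M, A ∉ badS) :
    (-(1 / 2) * p 0 0 + √3 / 2 * p 0 1) + (1 / 2 * p 2 0 - √3 / 2 * p 2 1)
      + (-(1 / 2) * p 3 0 - √3 / 2 * p 3 1) + (1 / 2 * p 4 0 + √3 / 2 * p 4 1) ≤ B := by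
  have key := cal (p := p) hB ![-(1 / 2), 0, 1 / 2, -(1 / 2), 1 / 2]
    ![√3 / 2, 0, -(√3 / 2), -(√3 / 2), √3 / 2] ?_ ?_ ?_
  · simp [Fin.sum_univ_five] at key
    linarith
  · simp [Fin.sum_univ_five]
  · simp [Fin.sum_univ_five]
  · intro A hA
    have h1 := h A hA
    have h2 : ∀ A : Finset (Fin 5), A ∉ badS →
        ¬ (0 ∈ A ∧ 4 ∈ A ∧ 2 ∉ A ∧ 3 ∉ A) ∧ ¬ (0 ∉ A ∧ 4 ∉ A ∧ 2 ∈ A ∧ 3 ∈ A) := by
      decide
    have h3 := h2 A h1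
    rw [sum5, sum5]
    have h6 := sq3
    by_cases b0 : (0 : Fin 5) ∈ A <;> by_cases b1 : (1 : Fin 5) ∈ A <;>
      by_cases b2 : (2 : Fin 5) ∈ A <;> by_cases b3 : (3 : Fin 5) ∈ A <;>
      by_cases b4 : (4 : Fin 5) ∈ A <;>
      simp [b0, b1, b2, b3, b4] at h3 ⊢ <;> nlinarith

/-- Calibration of the vertical tree. -/
theorem calT {K : Set E2} {p : Fin 5 → E2} {B : ℝ} {M : Set (Finset (Fin 5))}
    (hB : ∀ φ : Fin 5 → E2 → ℝ, (∀ A ∈ M, LipOn K φ A) → (∀ x ∈ K, ∑ i, φ i x = 0) →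
      ∑ i, φ i (p i) ≤ B)
    (h : ∀ A ∈ M, A ∉ badT) :
    (-(√3 / 2) * p 0 0 + 1 / 2 * p 0 1) + ((√3 / 2 - 1 / 2) * p 1 0 + (1 / 2 - √3 / 2) * p 1 1)
      + (√3 / 2 * p 2 0 - 1 / 2 * p 2 1) + (-(√3 / 2) * p 3 0 - 1 / 2 * p 3 1)
      + (1 / 2 * p 4 0 + √3 / 2 * p 4 1) ≤ B := by
  have key := cal (p := p) hB ![-(√3 / 2), √3 / 2 - 1 / 2, √3 / 2, -(√3 / 2), 1 / 2]
    ![1 / 2, 1 / 2 - √3 / 2, -(1 / 2), -(1 / 2), √3 / 2] ?_ ?_ ?_
  · simp [Fin.sum_univ_five] at key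
    linarith
  · simp [Fin.sum_univ_five]; ring
  · simp [Fin.sum_univ_five]; ring
  · intro A hA
    have h1 := h A hA
    have k0 : ∀ A : Finset (Fin 5), 0 ∉ A → 1 ∈ A → 2 ∈ A → 3 ∉ A → 4 ∉ A → A ∈ badT := by
      decide
    have k1 : ∀ A : Finset (Fin 5), 0 ∈ A → 1 ∉ A → 2 ∉ A → 3 ∈ A → 4 ∉ A → A ∈ badT := by
      decide
    have k2 : ∀ A : Finset (Fin 5), 0 ∈ A → 1 ∈ A → 2 ∉ A → 3 ∈ A → 4 ∉ A → A ∈ badT := by
      decide
    have k3 : ∀ A : Finset (Fin 5), 0 ∉ A → 1 ∈ A → 2 ∈ A → 3 ∈ A → 4 ∉ A → A ∈ badT := by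
      decide
    have k4 : ∀ A : Finset (Fin 5), 0 ∈ A → 1 ∉ A → 2 ∉ A → 3 ∉ A → 4 ∈ A → A ∈ badT := by
      decide
    have k5 : ∀ A : Finset (Fin 5), 0 ∉ A → 1 ∉ A → 2 ∈ A → 3 ∉ A → 4 ∈ A → A ∈ badT := by
      decide
    have k6 : ∀ A : Finset (Fin 5), 0 ∉ A → 1 ∈ A → 2 ∈ A → 3 ∉ A → 4 ∈ A → A ∈ badT := by
      decide
    have k7 : ∀ A : Finset (Fin 5), 0 ∈ A → 1 ∉ A → 2 ∉ A → 3 ∈ A → 4 ∈ A → A ∈ badT := by
      intro A q0 q1 q2 q3 q4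
      have hq : A = {0, 3, 4} := by
        ext i
        fin_cases i <;> simp [q0, q1, q2, q3, q4]
      rw [hq]
      decide
    rw [sum5, sum5]
    have h6 := sq3
    have h7 := sq3_lt
    have h8 := sq3_gt
    by_cases b0 : (0 : Fin 5) ∈ A <;> by_cases b1 : (1 : Fin 5) ∈ A <;>
      by_cases b2 : (2 : Fin 5) ∈ A <;> by_cases b3 : (3 : Fin 5) ∈ A <;>
      by_cases b4 : (4 : Fin 5) ∈ A <;>
      first
      | exact absurd (k0 A b0 b1 b2 b3 b4) h1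
      | exact absurd (k1 A b0 b1 b2 b3 b4) h1
      | exact absurd (k2 A b0 b1 b2 b3 b4) h1
      | exact absurd (k3 A b0 b1 b2 b3 b4) h1
      | exact absurd (k4 A b0 b1 b2 b3 b4) h1
      | exact absurd (k5 A b0 b1 b2 b3 b4) h1
      | exact absurd (k6 A b0 b1 b2 b3 b4) h1
      | exact absurd (k7 A b0 b1 b2 b3 b4) h1
      | (simp [b0, b1, b2, b3, b4]; done)
      | (simp [b0, b1, b2, b3, b4]; nlinarith)

/-- Laminar pairs. -/
def lam (A B : Finset (Fin 5)) : Prop := A ⊆ B ∨ B ⊆ A ∨ Disjoint A B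

instance (A B : Finset (Fin 5)) : Decidable (lam A B) := by unfold lam; infer_instance

def n3 : Fin 5 → ℤ := ![-970, 270, 690, -940, 950]
def m3 : Fin 5 → ℤ := ![0, 810, -690, -250, 130]

def n4 : Fin 5 → ℤ := ![-958, 155, 803, -915, 915]
def m4 : Fin 5 → ℤ := ![280, 313, -593, -399, 399]

def n5 : Fin 5 → ℤ := ![-834, 393, 834, -892, 499]
def m5 : Fin 5 → ℤ := ![548, -416, -548, -448, 864]

def n6 : Fin 5 → ℤ := ![-958, 673, 737, -951, 499]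
def m6 : Fin 5 → ℤ := ![280, -169, -673, -302, 864]

theorem bad3 : badSet n3 m3 =
    {{0, 1}, {0, 3}, {0, 1, 3}, {0, 2, 3}, {1, 4}, {2, 4}, {1, 2, 4}, {2, 3, 4}} := by
  decide +kernel
theorem bad4 : badSet n4 m4 =
    {{0, 3}, {0, 1, 3}, {0, 2, 3}, {1, 4}, {2, 4}, {1, 2, 4}} := by
  decide +kernel
theorem bad5 : badSet n5 m5 =
    {{1, 2}, {0, 3}, {0, 1, 3}, {1, 2, 3}, {0, 4}, {2, 4}, {1, 2, 4}, {0, 3, 4}} := by
  decide +kernel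
theorem bad6 : badSet n6 m6 =
    {{1, 2}, {0, 3}, {0, 1, 3}, {0, 2, 3}, {1, 2, 3}, {0, 4}, {1, 4}, {2, 4}, {1, 2, 4},
      {0, 3, 4}} := by
  decide +kernel

theorem comb1 : ∀ A ∈ badS, ∀ B ∈ badT, ∀ C ∈ badSet n3 m3,
    ¬ (lam A B ∧ lam A C ∧ lam B C) := by
  rw [bad3]
  decide +kernel

theorem comb2 : ∀ A ∈ badS, ∀ B ∈ badSet n4 m4, ∀ C ∈ badSet n5 m5, ∀ D ∈ badSet n6 m6,
    ¬ (lam A B ∧ lam A C ∧ lam B C ∧ lam A D ∧ lam B D ∧ lam C D) := by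
  rw [bad4, bad5, bad6]
  decide +kernel

/-- A connected compact set through the corners and the end of the whisker. -/
theorem lower1 {K : Set E2} (hK : IsCompact K) (hc : IsConnected K) (p : Fin 5 → E2)
    (hp : ∀ i, p i ∈ K) (h00 : p 0 0 = -1) (h01 : p 0 1 = 1) (h10 : p 1 0 = 1) (h11 : p 1 1 = 1)
    (h20 : p 2 0 = 1) (h21 : p 2 1 = -1) (h30 : p 3 0 = -1) (h31 : p 3 1 = -1)
    (h40 : p 4 0 = 1 + 1 / 200) (h41 : p 4 1 = 1 + √3 / 200) :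
    ENNReal.ofReal (2 + 2 * √3 + 1 / 100) ≤ μH[1] K := by
  by_contra hlt
  push Not at hlt
  have hfin : μH[1] K ≠ ∞ := ne_top_of_lt hlt
  set L := (μH[1] K).toReal with hL
  have hL0 : 0 ≤ L := ENNReal.toReal_nonneg
  have hLlt : L < 2 + 2 * √3 + 1 / 100 := by
    rw [hL]
    exact (ENNReal.lt_ofReal_iff_toReal_lt hfin).1 hlt
  obtain ⟨M, hM, _, hB⟩ := exists_laminar hK hc p hp L hL0 (by rw [hL, ENNReal.ofReal_toReal hfin])
    ((2 + 2 * √3 + 1 / 100 - L) / 2) (by linarith)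
  set B := L + (2 + 2 * √3 + 1 / 100 - L) / 2 with hBdef
  have hBlt : B < 2 + 2 * √3 + 1 / 100 := by rw [hBdef]; linarith
  have h6 := sq3
  have h7 := sq3_lt
  have h8 := sq3_gt
  by_cases hS : ∀ A ∈ M, A ∉ badS
  · have := calS hB hS
    rw [h00, h01, h20, h21, h30, h31, h40, h41] at this
    nlinarith
  by_cases hT : ∀ A ∈ M, A ∉ badT
  · have := calT hB hT
    rw [h00, h01, h10, h11, h20, h21, h30, h31, h40, h41] at this
    nlinarith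
  by_cases h3 : ∀ A ∈ M, A ∉ badSet n3 m3
  · have := calInt (p := p) hB n3 m3 (by decide) (by decide) h3
    simp [Fin.sum_univ_five, n3, m3, h00, h01, h10, h11, h20, h21, h30, h31, h40, h41] at this
    linarith
  push Not at hS hT h3
  obtain ⟨A, hA, hA'⟩ := hS
  obtain ⟨A2, hA2, hA2'⟩ := hT
  obtain ⟨A3, hA3, hA3'⟩ := h3
  exact comb1 A hA' A2 hA2' A3 hA3' ⟨hM _ hA _ hA2, hM _ hA _ hA3, hM _ hA2 _ hA3⟩

/-- A connected compact set reaching the five balls. -/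
theorem lower2 {K : Set E2} (hK : IsCompact K) (hc : IsConnected K) (p : Fin 5 → E2)
    (hp : ∀ i, p i ∈ K)
    (d0 : 0 ≤ -(1 / 2) * (p 0 0 + 1) + √3 / 2 * (p 0 1 - 1))
    (d2 : 0 ≤ 1 / 2 * (p 2 0 - 1) - √3 / 2 * (p 2 1 + 1))
    (d3 : 0 ≤ -(1 / 2) * (p 3 0 + 1) - √3 / 2 * (p 3 1 + 1))
    (d4 : 0 ≤ 1 / 2 * (p 4 0 - (1 + 1 / 200)) + √3 / 2 * (p 4 1 - (1 + √3 / 200)))
    (h00 : |p 0 0 + 1| ≤ 1 / 500) (h01 : |p 0 1 - 1| ≤ 1 / 500)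
    (h10 : |p 1 0 - (1 - √3 / 6)| ≤ 1 / 500) (h11 : |p 1 1 - 1 / 2| ≤ 1 / 500)
    (h20 : |p 2 0 - 1| ≤ 1 / 500) (h21 : |p 2 1 + 1| ≤ 1 / 500)
    (h30 : |p 3 0 + 1| ≤ 1 / 500) (h31 : |p 3 1 + 1| ≤ 1 / 500)
    (h40 : |p 4 0 - (1 + 1 / 200)| ≤ 1 / 500) (h41 : |p 4 1 - (1 + √3 / 200)| ≤ 1 / 500) :
    ENNReal.ofReal (2 + 2 * √3 + 1 / 100) ≤ μH[1] K := by
  by_contra hlt
  push Not at hlt
  have hfin : μH[1] K ≠ ∞ := ne_top_of_lt hlt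
  set L := (μH[1] K).toReal with hL
  have hL0 : 0 ≤ L := ENNReal.toReal_nonneg
  have hLlt : L < 2 + 2 * √3 + 1 / 100 := by
    rw [hL]
    exact (ENNReal.lt_ofReal_iff_toReal_lt hfin).1 hlt
  obtain ⟨M, hM, _, hB⟩ := exists_laminar hK hc p hp L hL0 (by rw [hL, ENNReal.ofReal_toReal hfin])
    ((2 + 2 * √3 + 1 / 100 - L) / 2) (by linarith)
  set B := L + (2 + 2 * √3 + 1 / 100 - L) / 2 with hBdef
  have hBlt : B < 2 + 2 * √3 + 1 / 100 := by rw [hBdef]; linarith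
  have h6 := sq3
  have h7 := sq3_lt
  have h8 := sq3_gt
  rw [abs_le] at h00 h01 h10 h11 h20 h21 h30 h31 h40 h41
  by_cases hS : ∀ A ∈ M, A ∉ badS
  · have := calS hB hS
    nlinarith
  by_cases h4 : ∀ A ∈ M, A ∉ badSet n4 m4
  · have := calInt (p := p) hB n4 m4 (by decide) (by decide) h4
    simp [Fin.sum_univ_five, n4, m4] at this
    linarith
  by_cases h5 : ∀ A ∈ M, A ∉ badSet n5 m5
  · have := calInt (p := p) hB n5 m5 (by decide) (by decide) h5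
    simp [Fin.sum_univ_five, n5, m5] at this
    linarith
  by_cases h6 : ∀ A ∈ M, A ∉ badSet n6 m6
  · have := calInt (p := p) hB n6 m6 (by decide) (by decide) h6
    simp [Fin.sum_univ_five, n6, m6] at this
    linarith
  push Not at hS h4 h5 h6
  obtain ⟨A, hA, hA'⟩ := hS
  obtain ⟨A2, hA2, hA2'⟩ := h4
  obtain ⟨A3, hA3, hA3'⟩ := h5
  obtain ⟨A4, hA4, hA4'⟩ := h6
  exact comb2 A hA' A2 hA2' A3 hA3' A4 hA4' ⟨hM _ hA _ hA2, hM _ hA _ hA3, hM _ hA2 _ hA3,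
    hM _ hA _ hA4, hM _ hA2 _ hA4, hM _ hA3 _ hA4⟩

end Pool.Agent.W574.NU
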