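import Mathlib
import Pool.Agent.W574.NUTrees

/-!
# The example
-/

set_option autoImplicit false

namespace Pool.Agent.W574.NU

open scoped ENNReal NNReal
open MeasureTheory Metric Pool.Agent.Helper752
open Pool.Agent.Results.MP_a6ae22_gt.EnergeticNotDetermining (SA SB dist_le_of)

theorem lin_seg {p q : E2} (u v : ℝ) {x : E2} (hx : x ∈ segment ℝ p q) :
    ∃ s t : ℝ, 0 ≤ s ∧ 0 ≤ t ∧ s + t = 1 ∧ x = s • p + t • q ∧
      u * x 0 + v * x 1 = s * (u * p 0 + v * p 1) + t * (u * q 0 + v * q 1) := by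
  obtain ⟨s, t, hs, ht, hst, rfl⟩ := hx
  refine ⟨s, t, hs, ht, hst, rfl, ?_⟩
  simp; ring

theorem TB_low {x : E2} (hx : x ∈ TB) : -2 ≤ 1 * x 0 + 1 * x 1 := by
  have h1 := sq3_gt
  have h2 := sq3_lt
  have key : ∀ p q : E2, -2 ≤ 1 * p 0 + 1 * p 1 → -2 ≤ 1 * q 0 + 1 * q 1 → ∀ x ∈ segment ℝ p q,
      -2 ≤ 1 * x 0 + 1 * x 1 := by
    intro p q hp hq x hx
    obtain ⟨s, t, hs, ht, hst, -, e⟩ := lin_seg 1 1 hx
    rw [e]
    have ht' : t = 1 - s := by linarith
    subst ht'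
    nlinarith [mul_le_mul_of_nonneg_left hp hs, mul_le_mul_of_nonneg_left hq ht]
  rcases hx with ((((hx | hx) | hx) | hx) | hx) | hx <;>
    refine key _ _ ?_ ?_ x hx <;> simp [wb] <;> linarith

theorem TB_local {x : E2} (hx : x ∈ TB) (h : 1 ≤ 1 * x 0 + 1 * x 1) :
    0 ≤ x 1 - x 0 ∧ (x 1 - x 0 = 0 → x = !₂[1, 1]) := by
  have h1 := sq3_gt
  have h2 := sq3_lt
  have key : ∀ p q : E2, 1 * p 0 + 1 * p 1 < 1 → 1 * q 0 + 1 * q 1 < 1 → ∀ x ∈ segment ℝ p q,
      1 * x 0 + 1 * x 1 < 1 := by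
    intro p q hp hq x hx
    obtain ⟨s, t, hs, ht, hst, -, e⟩ := lin_seg 1 1 hx
    rw [e]
    rcases eq_or_lt_of_le hs with h0 | h0
    · have : t = 1 := by linarith
      subst this
      rw [← h0]
      linarith
    · have e1 : s * (1 * p 0 + 1 * p 1) < s * 1 := mul_lt_mul_of_pos_left hp h0
      have e2 : t * (1 * q 0 + 1 * q 1) ≤ t * 1 := mul_le_mul_of_nonneg_left hq.le ht
      linarith
  rcases hx with ((((hx | hx) | hx) | hx) | hx) | hx
  · exact absurd h (not_le.2 (key _ _ (by simp <;> linarith) (by simp <;> linarith) x hx))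
  · exact absurd h (not_le.2 (key _ _ (by simp <;> linarith) (by simp <;> linarith) x hx))
  · exact absurd h (not_le.2 (key _ _ (by simp <;> linarith) (by simp <;> linarith) x hx))
  · obtain ⟨s, t, hs, ht, hst, hx', e⟩ := lin_seg (-1) 1 hx
    simp at e
    constructor
    · nlinarith
    · intro h0
      have hs0 : s * (1 - √3 / 3) = 0 := by linarith
      have hs1 : s = 0 := by
        rcases mul_eq_zero.1 hs0 with h' | h'
        · exact h'
        · linarith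
      have ht1 : t = 1 := by linarith
      rw [hx', hs1, ht1]
      simp
  · exact absurd h (not_le.2 (key _ _ (by simp <;> linarith) (by simp <;> linarith) x hx))
  · obtain ⟨s, t, hs, ht, hst, hx', e⟩ := lin_seg (-1) 1 hx
    simp [wb] at e
    constructor
    · nlinarith
    · intro h0
      have hs0 : t * (√3 - 1) = 0 := by nlinarith
      have hs1 : t = 0 := by
        rcases mul_eq_zero.1 hs0 with h' | h'
        · exact h'
        · linarith
      have ht1 : s = 1 := by linarith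
      rw [hx', hs1, ht1]
      simp

theorem not_straight_B : ¬ Straight TB !₂[1, 1] := by
  rintro ⟨x, y, hxy, hsub, s, t, hs, ht, hst, hcomb⟩
  have hxm : x ∈ segment ℝ x y := left_mem_segment ℝ _ _
  have hym : y ∈ segment ℝ x y := right_mem_segment ℝ _ _
  have ham : (!₂[1, 1] : E2) ∈ segment ℝ x y := ⟨s, t, hs.le, ht.le, hst, hcomb⟩
  have hx0 := TB_low (hsub hxm)
  have hy0 := TB_low (hsub hym)
  have hloc : ∀ w : E2, w ∈ segment ℝ x y → 0 ≤ w 1 - w 0 ∧ (w 1 - w 0 = 0 → w = !₂[1, 1]) := by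
    intro w hw
    have hw0 := TB_low (hsub hw)
    set w' : E2 := (3 / 4 : ℝ) • !₂[1, 1] + (1 / 4 : ℝ) • w with hw'
    have hm : w' ∈ segment ℝ x y :=
      (convex_segment x y).segment_subset ham hw ⟨3 / 4, 1 / 4, by norm_num, by norm_num,
        by norm_num, rfl⟩
    have e0 : w' 0 = 3 / 4 + 1 / 4 * w 0 := by rw [hw']; simp
    have e1 : w' 1 = 3 / 4 + 1 / 4 * w 1 := by rw [hw']; simp
    have h := TB_local (hsub hm) (by rw [e0, e1]; linarith)
    rw [e0, e1] at h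
    constructor
    · linarith [h.1]
    · intro h0
      have h2 := h.2 (by linarith)
      have f0 : w' 0 = 1 := by rw [h2]; simp
      have f1 : w' 1 = 1 := by rw [h2]; simp
      ext j
      fin_cases j
      · simp; linarith
      · simp; linarith
  have hx1 := hloc x hxm
  have hy1 := hloc y hym
  have c0 : s * x 0 + t * y 0 = 1 := by
    have := congrArg (fun w : E2 => w 0) hcomb
    simpa using this
  have c1 : s * x 1 + t * y 1 = 1 := by
    have := congrArg (fun w : E2 => w 1) hcomb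
    simpa using this
  have hsum : s * (x 1 - x 0) + t * (y 1 - y 0) = 0 := by linarith
  have k1 : 0 ≤ s * (x 1 - x 0) := mul_nonneg hs.le hx1.1
  have k2 : 0 ≤ t * (y 1 - y 0) := mul_nonneg ht.le hy1.1
  have k3 : x 1 - x 0 = 0 := by
    have : s * (x 1 - x 0) = 0 := by linarith
    rcases mul_eq_zero.1 this with h' | h'
    · linarith
    · exact h'
  have k4 : y 1 - y 0 = 0 := by
    have : t * (y 1 - y 0) = 0 := by linarith
    rcases mul_eq_zero.1 this with h' | h'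
    · linarith
    · exact h'
  exact hxy ((hx1.2 k3).trans (hy1.2 k4).symm)

/-- The five points to be covered. -/
noncomputable def ypt : Fin 5 → E2 :=
  ![!₂[-1 - 1 / 2000, 1 + √3 / 2000], !₂[1 - √3 / 6, 1 / 2], !₂[1 + 1 / 2000, -1 - √3 / 2000],
    !₂[-1 - 1 / 2000, -1 - √3 / 2000], !₂[1 + 1 / 200 + 1 / 2000, 1 + √3 / 200 + √3 / 2000]]

theorem term_inj : Function.Injective term := by
  intro i j h
  have h1 := sq3_gt
  have h0 := congrArg (fun w : E2 => w 0) h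
  have h2 := congrArg (fun w : E2 => w 1) h
  fin_cases i <;> fin_cases j <;> first | rfl | (exfalso; simp [term, wb] at h0 h2; done) |
    (exfalso; simp [term, wb] at h0 h2; linarith)

theorem ypt_inj : Function.Injective ypt := by
  intro i j h
  have h1 := sq3_gt
  have h1' := sq3_lt
  have h0 := congrArg (fun w : E2 => w 0) h
  have h2 := congrArg (fun w : E2 => w 1) h
  fin_cases i <;> fin_cases j <;> first | rfl | (exfalso; simp [ypt] at h0 h2; done) |
    (exfalso; simp [ypt] at h0 h2; linarith)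

theorem ncard_range5 {f : Fin 5 → E2} (hf : Function.Injective f) : (Set.range f).ncard = 5 := by
  rw [← Set.image_univ, Set.ncard_image_of_injective _ hf, Set.ncard_univ]
  simp

theorem cover_TA : ∀ y ∈ Set.range ypt, infDist y TA ≤ 1 / 1000 := by
  have h := sq3
  have key : ∀ (i : Fin 5) (z : E2), z ∈ TA → dist (ypt i) z ≤ 1 / 1000 →
      infDist (ypt i) TA ≤ 1 / 1000 :=
    fun i z hz hd => (infDist_le_dist_of_mem hz).trans hd
  have k0 : dist (!₂[-1 - 1 / 2000, 1 + √3 / 2000] : E2) !₂[-1, 1] ≤ 1 / 1000 :=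
    dist_le_of _ _ _ _ _ (by norm_num) (by nlinarith)
  have k2 : dist (!₂[1 + 1 / 2000, -1 - √3 / 2000] : E2) !₂[1, -1] ≤ 1 / 1000 :=
    dist_le_of _ _ _ _ _ (by norm_num) (by nlinarith)
  have k3 : dist (!₂[-1 - 1 / 2000, -1 - √3 / 2000] : E2) !₂[-1, -1] ≤ 1 / 1000 :=
    dist_le_of _ _ _ _ _ (by norm_num) (by nlinarith)
  have k4 : dist (!₂[1 + 1 / 200 + 1 / 2000, 1 + √3 / 200 + √3 / 2000] : E2)
      !₂[1 + 1 / 200, 1 + √3 / 200] ≤ 1 / 1000 :=
    dist_le_of _ _ _ _ _ (by norm_num) (by nlinarith)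
  have hz : (!₂[1 - √3 / 6, 1 / 2] : E2) ∈ TA := by
    refine Or.inl (Or.inl (Or.inr ⟨1 / 2, 1 / 2, by norm_num, by norm_num, by norm_num, ?_⟩))
    ext j
    fin_cases j
    · simp; ring
    · simp
  rintro _ ⟨i, rfl⟩
  fin_cases i
  · exact key 0 _ (term_TA 0) k0
  · refine key 1 _ hz ?_
    have : dist (ypt 1) (!₂[1 - √3 / 6, 1 / 2] : E2) = 0 := dist_self _
    rw [this]
    norm_num
  · exact key 2 _ (term_TA 2) k2
  · exact key 3 _ (term_TA 3) k3
  · exact key 4 _ (term_TA 4) k4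

theorem abs_of_dist {x y : E2} {r : ℝ} (hr : 0 ≤ r) (h : dist x y ≤ r) :
    (x 0 - y 0) ^ 2 + (x 1 - y 1) ^ 2 ≤ r ^ 2 := by
  rw [EuclideanSpace.dist_eq, Real.sqrt_le_left hr] at h
  simpa [Fin.sum_univ_two, Real.dist_eq, sq_abs] using h

theorem lowerM (K : Set E2) (hK : IsCompact K) (hc : IsConnected K)
    (h : ∀ y ∈ Set.range ypt, infDist y K ≤ 1 / 1000) :
    ENNReal.ofReal (2 + 2 * √3 + 1 / 100) ≤ μH[1] K := by
  have hp : ∀ i, ∃ p ∈ K, dist (ypt i) p ≤ 1 / 1000 := by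
    intro i
    obtain ⟨p, hpS, hp⟩ := hK.exists_infDist_eq_dist hc.nonempty (ypt i)
    refine ⟨p, hpS, ?_⟩
    rw [← hp]
    exact h _ ⟨i, rfl⟩
  choose p hpK hpd using hp
  have q : ∀ i, (ypt i 0 - p i 0) ^ 2 + (ypt i 1 - p i 1) ^ 2 ≤ (1 / 1000) ^ 2 :=
    fun i => abs_of_dist (by norm_num) (hpd i)
  have q0 : ∀ i, |ypt i 0 - p i 0| ≤ 1 / 1000 := fun i =>
    abs_le_of_sq_le_sq (by nlinarith [q i, sq_nonneg (ypt i 1 - p i 1)]) (by norm_num)
  have q1 : ∀ i, |ypt i 1 - p i 1| ≤ 1 / 1000 := fun i =>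
    abs_le_of_sq_le_sq (by nlinarith [q i, sq_nonneg (ypt i 0 - p i 0)]) (by norm_num)
  -- the directional estimate
  have dir : ∀ i, ∀ u v : ℝ, u ^ 2 + v ^ 2 = 1 →
      -(1 / 1000) ≤ u * (p i 0 - ypt i 0) + v * (p i 1 - ypt i 1) := by
    intro i u v huv
    have h1 := q i
    have h3 : (u * (p i 0 - ypt i 0) + v * (p i 1 - ypt i 1)) ^ 2 ≤ (1 / 1000) ^ 2 := by
      nlinarith [sq_nonneg (u * (p i 1 - ypt i 1) - v * (p i 0 - ypt i 0))]
    exact (abs_le.1 (abs_le_of_sq_le_sq h3 (by norm_num))).1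
  have h6 := sq3
  have h7 := sq3_lt
  have h8 := sq3_gt
  have d0 := dir 0 (-(1 / 2)) (√3 / 2) (by nlinarith)
  have d2 := dir 2 (1 / 2) (-(√3 / 2)) (by nlinarith)
  have d3 := dir 3 (-(1 / 2)) (-(√3 / 2)) (by nlinarith)
  have d4 := dir 4 (1 / 2) (√3 / 2) (by nlinarith)
  have a0 := abs_le.1 (q0 0)
  have a1 := abs_le.1 (q0 1)
  have a2 := abs_le.1 (q0 2)
  have a3 := abs_le.1 (q0 3)
  have a4 := abs_le.1 (q0 4)
  have b0 := abs_le.1 (q1 0)
  have b1 := abs_le.1 (q1 1)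
  have b2 := abs_le.1 (q1 2)
  have b3 := abs_le.1 (q1 3)
  have b4 := abs_le.1 (q1 4)
  simp [ypt] at a0 a1 a2 a3 a4 b0 b1 b2 b3 b4 d0 d2 d3 d4
  refine lower2 hK hc p hpK ?_ ?_ ?_ ?_ ?_ ?_ ?_ ?_ ?_ ?_ ?_ ?_ ?_ ?_
  · nlinarith
  · nlinarith
  · nlinarith
  · nlinarith
  all_goals rw [abs_le]; constructor <;> linarith

end Pool.Agent.W574.NU
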